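import Mathlib

set_option autoImplicit false

namespace Pool.Agent.Results.MP_c09033_al.Counter

open Topology DihedralGroup

universe u

/-- `f : G → H` is semitopological (the extension group lives in universe `u`). -/
def Semitop {G H : Type} [Group G] [TopologicalSpace G] [Group H] [TopologicalSpace H]
    (f : G →* H) : Prop :=
  ∃ (E : Type u) (_ : Group E) (_ : TopologicalSpace E) (_ : IsTopologicalGroup E)
    (ι : G →* E) (F : E →* H),
    IsEmbedding ι ∧ ι.range.Normal ∧ Continuous F ∧ IsOpenMap F ∧ F.comp ι = f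

def red {m n : ℕ} (φ : ZMod m →+* ZMod n) : DihedralGroup m →* DihedralGroup n :=
  MonoidHom.mk' (fun g => match g with
    | r i => r (φ i)
    | sr i => sr (φ i)) (by rintro (i | i) (j | j) <;> simp)

@[simp] theorem red_r {m n : ℕ} (φ : ZMod m →+* ZMod n) (i : ZMod m) : red φ (r i) = r (φ i) := rfl
@[simp] theorem red_sr {m n : ℕ} (φ : ZMod m →+* ZMod n) (i : ZMod m) : red φ (sr i) = sr (φ i) := rfl

def sgn {m : ℕ} : DihedralGroup m →* ℤˣ :=
  MonoidHom.mk' (fun g => match g with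
    | r _ => 1
    | sr _ => -1) (by rintro (i | i) (j | j) <;> simp)

@[simp] theorem sgn_r {m : ℕ} (i : ZMod m) : sgn (r i) = 1 := rfl
@[simp] theorem sgn_sr {m : ℕ} (i : ZMod m) : sgn (sr i) = -1 := rfl

def D5 : Type := DihedralGroup 5
instance : Group D5 := inferInstanceAs (Group (DihedralGroup 5))
instance : TopologicalSpace D5 := ⊥
instance : DiscreteTopology D5 := ⟨rfl⟩

def U2 : Type := ℤˣ
instance : Group U2 := inferInstanceAs (Group ℤˣ)
instance : TopologicalSpace U2 := ⊥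
instance : DiscreteTopology U2 := ⟨rfl⟩

def GG : Type := DihedralGroup 0
instance : Group GG := inferInstanceAs (Group (DihedralGroup 0))
def p5 : GG →* D5 := red (m := 0) (n := 5) (Int.castRingHom (ZMod 5))
instance : TopologicalSpace GG := TopologicalSpace.induced p5 inferInstance
instance : IsTopologicalGroup GG := topologicalGroup_induced p5

def KK : Type := DihedralGroup 3
instance : Group KK := inferInstanceAs (Group (DihedralGroup 3))
def sK : KK →* U2 := sgn (m := 3)
instance : TopologicalSpace KK := TopologicalSpace.induced sK inferInstance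
instance : IsTopologicalGroup KK := topologicalGroup_induced sK

def HH : Type := DihedralGroup 3
instance : Group HH := inferInstanceAs (Group (DihedralGroup 3))
instance : TopologicalSpace HH := ⊤
instance : IsTopologicalGroup HH where
  continuous_mul := continuous_top
  continuous_inv := continuous_top

def f1 : GG →* KK := red (m := 0) (n := 3) (Int.castRingHom (ZMod 3))
def f2 : KK →* HH := MonoidHom.id (DihedralGroup 3)

def EE : Type u := ULift.{u} (DihedralGroup 3 × ℤˣ)
instance : Group EE.{u} := inferInstanceAs (Group (ULift.{u} (DihedralGroup 3 × ℤˣ)))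
def sE : EE.{u} →* U2 :=
  MonoidHom.mk' (fun x => (sgn x.down.1 * x.down.2 : ℤˣ)) (by
    rintro ⟨a, b⟩ ⟨c, d⟩
    show (sgn (a * c) * (b * d) : ℤˣ) = (sgn a * b) * (sgn c * d)
    rw [map_mul, mul_mul_mul_comm])
instance : TopologicalSpace EE.{u} := TopologicalSpace.induced sE inferInstance
instance : IsTopologicalGroup EE.{u} := topologicalGroup_induced sE
def iE : KK →* EE.{u} := MonoidHom.mk' (fun g => ULift.up (g, 1)) (fun _ _ => rfl)
def FE : EE.{u} →* HH := MonoidHom.mk' (fun x => x.down.1) (fun _ _ => rfl)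

theorem f1_cont : Continuous f1 := by
  refine continuous_induced_rng.2 ?_
  have : (sK : KK → U2) ∘ f1 = (fun g : D5 => (sgn (m := 5) g : U2)) ∘ p5 := by
    funext g
    rcases g with i | i <;> rfl
  rw [this]
  exact continuous_of_discreteTopology.comp continuous_induced_dom

theorem f1_open : IsOpenMap f1 := by
  intro V hV
  obtain ⟨W, -, rfl⟩ := isOpen_induced_iff.1 hV
  refine isOpen_induced_iff.2 ⟨sK '' (f1 '' (p5 ⁻¹' W)), isOpen_discrete _, ?_⟩
  ext k
  constructor
  · rintro ⟨_, ⟨g, hg, rfl⟩, hk⟩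
    have crt : ∀ (i : ℤ) (j : ZMod 3), ∃ l : ℤ, (l : ZMod 5) = i ∧ (l : ZMod 3) = j := by
      intro i j
      refine ⟨6 * i + 10 * j.val, ?_, ?_⟩
      · push_cast
        rw [show (6 : ZMod 5) = 1 from rfl, show (10 : ZMod 5) = 0 from rfl]; simp
      · push_cast
        rw [show (6 : ZMod 3) = 0 from rfl, show (10 : ZMod 3) = 1 from rfl]; simp
    rcases g with i | i <;> rcases k with j | j
    · obtain ⟨l, h1, h2⟩ := crt i j
      refine ⟨r l, ?_, congrArg r h2⟩
      show p5 (r l) ∈ W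
      rwa [show p5 (r l) = p5 (r i) from congrArg r h1]
    · exact absurd hk (show (1 : ℤˣ) ≠ -1 by decide)
    · exact absurd hk (show (-1 : ℤˣ) ≠ 1 by decide)
    · obtain ⟨l, h1, h2⟩ := crt i j
      refine ⟨sr l, ?_, congrArg sr h2⟩
      show p5 (sr l) ∈ W
      rwa [show p5 (sr l) = p5 (sr i) from congrArg sr h1]
  · intro hk
    exact ⟨k, hk, rfl⟩

theorem f1_surj : Function.Surjective f1 := by
  rintro (j | j)
  · exact ⟨r (j.val : ℤ), congrArg r (show (((j.val : ℕ) : ℤ) : ZMod 3) = j by simp)⟩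
  · exact ⟨sr (j.val : ℤ), congrArg sr (show (((j.val : ℕ) : ℤ) : ZMod 3) = j by simp)⟩

theorem f2_semi : Semitop.{u} f2 := by
  refine ⟨EE.{u}, inferInstance, inferInstance, inferInstance, iE, FE, ⟨⟨?_⟩, ?_⟩, ⟨?_⟩,
    continuous_top, ?_, rfl⟩
  · show TopologicalSpace.induced sK _ = TopologicalSpace.induced iE (TopologicalSpace.induced sE _)
    rw [induced_compose]
    congr 1
    funext g
    exact (mul_one (sgn (m := 3) g)).symm
  · intro a b h
    exact congrArg (fun x : EE.{u} => x.down.1) h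
  · rintro _ ⟨a, rfl⟩ ⟨g, c⟩
    change DihedralGroup 3 at a
    refine ⟨(g * a * g⁻¹ : DihedralGroup 3), ?_⟩
    show ULift.up ((g * a * g⁻¹ : DihedralGroup 3), (1 : ℤˣ)) = ULift.up (g * a * g⁻¹, c * 1 * c⁻¹)
    simp
  · intro V hV
    obtain ⟨W, -, rfl⟩ := isOpen_induced_iff.1 hV
    rw [TopologicalSpace.isOpen_top_iff]
    rcases W.eq_empty_or_nonempty with rfl | ⟨w, hw⟩
    · left; simp
    · right
      change ℤˣ at w
      refine Set.eq_univ_of_forall fun g => ⟨ULift.up (g, (sgn (m := 3) g)⁻¹ * w), ?_, rfl⟩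
      show (sgn (m := 3) g * ((sgn (m := 3) g)⁻¹ * w) : ℤˣ) ∈ W
      rwa [mul_inv_cancel_left]

def R (a : ℤ) : GG := (r a : DihedralGroup 0)
def S (a : ℤ) : GG := (sr a : DihedralGroup 0)
theorem R_mul (a b : ℤ) : R a * R b = R (a + b) := rfl
theorem R_inv (a : ℤ) : (R a)⁻¹ = R (-a) := rfl
theorem R_zero : R 0 = 1 := rfl
theorem S_mul (a : ℤ) : S a * S a = 1 := sr_mul_self (n := 0) a
theorem R_inj {a b : ℤ} (h : R a = R b) : a = b := DihedralGroup.r.inj h
theorem GG_cases (g : GG) : (∃ a, g = R a) ∨ ∃ a, g = S a := by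
  rcases g with a | a
  · exact Or.inl ⟨a, rfl⟩
  · exact Or.inr ⟨a, rfl⟩

theorem R_pow (a b : ℤ) : R a ^ b = R (a * b) := by
  induction b using Int.induction_on with
  | zero => simp [R_zero]
  | succ n ih => rw [zpow_add_one, ih, R_mul]; congr 1; ring
  | pred n ih => rw [zpow_sub_one, ih, R_inv, R_mul]; congr 1; ring

theorem comp_not : ¬ Semitop.{u} (f2.comp f1) := by
  rintro ⟨E, _, _, _, ι, F, hι, hn, -, hFo, hF⟩
  have hO : IsOpen (p5 ⁻¹' {1}) := isOpen_induced_iff.2 ⟨{1}, isOpen_discrete _, rfl⟩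
  obtain ⟨O, hO1, hO2⟩ := hι.isInducing.isOpen_iff.1 hO
  have hc : Continuous fun x : E => x * ι (R 1) * x⁻¹ * (ι (R 1))⁻¹ := by fun_prop
  have hopen := hFo _ (hO1.preimage hc)
  have h1 : (1 : E) ∈ (fun x : E => x * ι (R 1) * x⁻¹ * (ι (R 1))⁻¹) ⁻¹' O := by
    have : (1 : GG) ∈ ι ⁻¹' O := by rw [hO2]; simp
    simpa using this
  rw [TopologicalSpace.isOpen_top_iff] at hopen
  rcases hopen with h | h
  · exact absurd h (Set.Nonempty.ne_empty ⟨_, 1, h1, rfl⟩)
  obtain ⟨x, hx, hxF⟩ : f2 (f1 (S 0)) ∈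
      F '' ((fun x : E => x * ι (R 1) * x⁻¹ * (ι (R 1))⁻¹) ⁻¹' O) := by
    rw [h]; trivial
  obtain ⟨g, hg⟩ := hn.conj_mem _ ⟨R 1, rfl⟩ x
  obtain ⟨g', hg'⟩ := hn.conj_mem _ ⟨R 1, rfl⟩ x⁻¹
  have hFι : ∀ y, F (ι y) = f2 (f1 y) := fun y => DFunLike.congr_fun hF y
  have e5 : p5 (g * (R 1)⁻¹) = 1 := by
    have : g * (R 1)⁻¹ ∈ ι ⁻¹' O := by
      show ι (g * (R 1)⁻¹) ∈ O
      rw [map_mul, map_inv, hg]; exact hx
    rwa [hO2] at this
  have e3 : f2 (f1 g) = f2 (f1 (R (-1))) := by
    rw [← hFι, hg, map_mul, map_mul, map_inv, hxF, hFι]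
    rfl
  rcases GG_cases g with ⟨a, rfl⟩ | ⟨a, rfl⟩
  · rcases GG_cases g' with ⟨b, rfl⟩ | ⟨b, rfl⟩
    · have hab : R (a * b) = R 1 := by
        apply hι.injective
        rw [← R_pow, map_zpow, hg, conj_zpow, ← map_zpow, R_pow, one_mul, hg']
        group
      rcases Int.eq_one_or_neg_one_of_mul_eq_one (R_inj hab) with rfl | rfl
      · exact absurd e3 (show (r ((1:ℤ) : ZMod 3) : DihedralGroup 3) ≠ r ((-1 : ℤ) : ZMod 3) by decide)
      · exact absurd e5 (show (r (((-1:ℤ) + -1 : ℤ) : ZMod 5) : DihedralGroup 5) ≠ 1 by decide)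
    · have h2 : ι (S b * S b) = x⁻¹ * ι (R 1 * R 1) * x := by
        rw [map_mul, hg', map_mul]; group
      rw [S_mul, map_one] at h2
      have h4 : ι (R 1 * R 1) = ι (R 0) := by
        rw [R_zero, map_one]
        calc ι (R 1 * R 1) = x * (x⁻¹ * ι (R 1 * R 1) * x) * x⁻¹ := by group
          _ = 1 := by rw [← h2]; group
      have h5 := R_inj ((R_mul 1 1).symm.trans (hι.injective h4))
      omega
  · have : (sr ((a : ℤ) : ZMod 3) : DihedralGroup 3) = r ((-1 : ℤ) : ZMod 3) := e3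
    cases this

theorem result : ∃ (G K H : Type) (_ : Group G) (_ : TopologicalSpace G) (_ : IsTopologicalGroup G)
    (_ : Group K) (_ : TopologicalSpace K) (_ : IsTopologicalGroup K)
    (_ : Group H) (_ : TopologicalSpace H) (_ : IsTopologicalGroup H) (f₁ : G →* K) (f₂ : K →* H),
    Continuous f₁ ∧ Function.Surjective f₁ ∧ IsOpenMap f₁ ∧
    Continuous f₂ ∧ Function.Bijective f₂ ∧ Semitop.{u} f₂ ∧ ¬ Semitop.{u} (f₂.comp f₁) :=
  ⟨GG, KK, HH, inferInstance, inferInstance, inferInstance, inferInstance, inferInstance,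
    inferInstance, inferInstance, inferInstance, inferInstance, f1, f2, f1_cont, f1_surj, f1_open,
    continuous_top, Function.bijective_id, f2_semi, comp_not⟩

end Pool.Agent.Results.MP_c09033_al.Counter
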